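import Pool.Agent.H632R3.BranchGen

/-!
# Fixed points between two fixed points, the second of which is a limit of truncations
-/

open Filter Topology Set

namespace Pool.Agent.V1138.BR

open Pool.Agent.H632R3.Branch

variable {X : Type}

section

variable {G : (X → ℝ) → (X → ℝ)} (hG : GoodOp G) {a b : X → ℝ}

open Classical in
/-- Iterates of the truncated system on `F`, starting from `a`, with boundary values
`(1-u) a + u b`. -/
noncomputable def phi (G : (X → ℝ) → (X → ℝ)) (a b : X → ℝ) (F : Finset X) (u : ℝ) :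
    ℕ → X → ℝ
  | 0 => fun x => if x ∈ F then a x else (1 - u) * a x + u * b x
  | k + 1 => fun x => if x ∈ F then G (phi G a b F u k) x else (1 - u) * a x + u * b x

include hG

theorem phi_box (ha : Box a) (hb : Box b) (F : Finset X) {u : ℝ} (h0 : 0 ≤ u) (h1 : u ≤ 1)
    (k : ℕ) : Box (phi G a b F u k) := by
  induction k with
  | zero =>
    intro x
    simp only [phi]
    split_ifs
    · exact ha x
    · exact Box.convex ha hb h0 h1 x
  | succ k ih =>
    intro x
    simp only [phi]
    split_ifs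
    · exact hG.box _ ih x
    · exact Box.convex ha hb h0 h1 x

theorem le_phi (ha : Box a) (hb : Box b) (hab : a ≤ b) (fa : G a = a) (F : Finset X) {u : ℝ}
    (h0 : 0 ≤ u) (h1 : u ≤ 1) (k : ℕ) : a ≤ phi G a b F u k := by
  have hw : ∀ x, a x ≤ (1 - u) * a x + u * b x := by
    intro x; nlinarith [hab x]
  induction k with
  | zero =>
    intro x
    simp only [phi]
    split_ifs
    · exact le_rfl
    · exact hw x
  | succ k ih =>
    intro x
    simp only [phi]
    split_ifs
    · calc a x = G a x := by rw [fa]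
        _ ≤ G (phi G a b F u k) x := hG.mono _ _ ha (phi_box hG ha hb F h0 h1 k) ih x
    · exact hw x

theorem phi_mono (ha : Box a) (hb : Box b) (hab : a ≤ b) (fa : G a = a) (F : Finset X) {u : ℝ}
    (h0 : 0 ≤ u) (h1 : u ≤ 1) (k : ℕ) : phi G a b F u k ≤ phi G a b F u (k + 1) := by
  induction k with
  | zero =>
    intro x
    simp only [phi]
    split_ifs with h
    · calc a x = G a x := by rw [fa]
        _ ≤ G (phi G a b F u 0) x := hG.mono _ _ ha (phi_box hG ha hb F h0 h1 0)
            (le_phi hG ha hb hab fa F h0 h1 0) x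
    · exact le_rfl
  | succ k ih =>
    intro x
    rw [phi, phi]
    dsimp only
    split_ifs with h
    · exact hG.mono _ _ (phi_box hG ha hb F h0 h1 k) (phi_box hG ha hb F h0 h1 (k + 1)) ih x
    · exact le_rfl

theorem phi_le_b (ha : Box a) (hb : Box b) (hab : a ≤ b) (fb : G b = b) (F : Finset X) {u : ℝ}
    (h0 : 0 ≤ u) (h1 : u ≤ 1) (k : ℕ) : phi G a b F u k ≤ b := by
  have hw : ∀ x, (1 - u) * a x + u * b x ≤ b x := by
    intro x; nlinarith [hab x]
  induction k with
  | zero =>
    intro x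
    simp only [phi]
    split_ifs
    · exact hab x
    · exact hw x
  | succ k ih =>
    intro x
    simp only [phi]
    split_ifs
    · calc G (phi G a b F u k) x ≤ G b x := hG.mono _ _ (phi_box hG ha hb F h0 h1 k) hb ih x
        _ = b x := by rw [fb]
    · exact hw x

theorem phi_zero_le (ha : Box a) (hb : Box b) (fa : G a = a) (F : Finset X) (k : ℕ) :
    phi G a b F 0 k ≤ a := by
  induction k with
  | zero =>
    intro x
    simp only [phi]
    split_ifs
    · exact le_rfl
    · simp
  | succ k ih =>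
    intro x
    simp only [phi]
    split_ifs
    · calc G (phi G a b F 0 k) x ≤ G a x :=
            hG.mono _ _ (phi_box hG ha hb F le_rfl zero_le_one k) ha ih x
        _ = a x := by rw [fa]
    · simp

open Classical in
theorem le_phi_one (ha : Box a) (hb : Box b) (fb : G b = b) (F : Finset X) (k : ℕ) :
    G^[k] (fun x => if x ∈ F then 0 else b x) ≤ phi G a b F 1 k := by
  have h0 : Box (fun x => if x ∈ F then 0 else b x) := by
    intro x
    dsimp only
    split_ifs
    · exact ⟨le_rfl, zero_le_one⟩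
    · exact hb x
  have hib : ∀ k, G^[k] (fun x => if x ∈ F then 0 else b x) ≤ b := by
    intro k
    induction k with
    | zero =>
      intro x
      simp only [Function.iterate_zero, id]
      split_ifs
      · exact (hb x).1
      · exact le_rfl
    | succ k ih =>
      rw [Function.iterate_succ_apply']
      intro x
      calc _ ≤ G b x := hG.mono _ _ (iter_box hG k h0) hb ih x
        _ = b x := by rw [fb]
  induction k with
  | zero =>
    intro x
    simp only [phi, Function.iterate_zero, id]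
    split_ifs
    · exact (ha x).1
    · simp
  | succ k ih =>
    intro x
    simp only [phi]
    split_ifs
    · rw [Function.iterate_succ_apply']
      exact hG.mono _ _ (iter_box hG k h0) (phi_box hG ha hb F zero_le_one le_rfl k) ih x
    · have := hib (k + 1) x
      linarith

theorem phi_cont (ha : Box a) (hb : Box b) (F : Finset X) (k : ℕ) :
    ∀ u ∈ Icc (0 : ℝ) 1, Tendsto (fun v => phi G a b F v k) (𝓝[Icc 0 1] u)
      (𝓝 (phi G a b F u k)) := by
  have hw : ∀ u ∈ Icc (0 : ℝ) 1, ∀ x, Tendsto (fun v : ℝ => (1 - v) * a x + v * b x)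
      (𝓝[Icc 0 1] u) (𝓝 ((1 - u) * a x + u * b x)) := by
    intro u _ x
    have : Continuous (fun v : ℝ => (1 - v) * a x + v * b x) := by fun_prop
    exact (this.tendsto u).mono_left nhdsWithin_le_nhds
  induction k with
  | zero =>
    intro u hu
    rw [tendsto_pi_nhds]
    intro x
    simp only [phi]
    split_ifs
    · exact tendsto_const_nhds
    · exact hw u hu x
  | succ k ih =>
    intro u hu
    rw [tendsto_pi_nhds]
    intro x
    simp only [phi]
    split_ifs
    · have h1 := hG.cont (𝓝[Icc 0 1] u) (fun v => phi G a b F v k) (phi G a b F u k)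
        (by
          filter_upwards [self_mem_nhdsWithin] with v hv
          exact phi_box hG ha hb F hv.1 hv.2 k)
        (phi_box hG ha hb F hu.1 hu.2 k) (ih u hu)
      exact (tendsto_pi_nhds.mp h1) x
    · exact hw u hu x

theorem phi_mono_u (ha : Box a) (hb : Box b) (hab : a ≤ b) (F : Finset X) {u : ℝ}
    (h0 : 0 ≤ u) (h1 : u ≤ 1) (k : ℕ) : phi G a b F u k ≤ phi G a b F 1 k := by
  have hw : ∀ x, (1 - u) * a x + u * b x ≤ (1 - 1) * a x + 1 * b x := by
    intro x; nlinarith [hab x]
  induction k with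
  | zero =>
    intro x
    simp only [phi]
    split_ifs
    · exact le_rfl
    · exact hw x
  | succ k ih =>
    intro x
    simp only [phi]
    split_ifs
    · exact hG.mono _ _ (phi_box hG ha hb F h0 h1 k) (phi_box hG ha hb F zero_le_one le_rfl k) ih x
    · exact hw x

theorem phi_conv (ha : Box a) (hb : Box b) (hab : a ≤ b) (F : Finset X) {u θ : ℝ}
    (h0 : 0 ≤ u) (h1 : u ≤ 1) (t0 : 0 ≤ θ) (t1 : θ ≤ 1) (k : ℕ) (x : X) :
    phi G a b F ((1 - θ) * u + θ) k x ≤
      (1 - θ) * phi G a b F u k x + θ * phi G a b F 1 k x := by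
  have hv0 : 0 ≤ (1 - θ) * u + θ := by nlinarith
  have hv1 : (1 - θ) * u + θ ≤ 1 := by nlinarith
  induction k generalizing x with
  | zero =>
    simp only [phi]
    split_ifs
    · apply le_of_eq; ring
    · apply le_of_eq; ring
  | succ k ih =>
    simp only [phi]
    split_ifs
    · calc G (phi G a b F ((1 - θ) * u + θ) k) x
          ≤ G (fun y => (1 - θ) * phi G a b F u k y + θ * phi G a b F 1 k y) x := by
            refine hG.mono _ _ (phi_box hG ha hb F hv0 hv1 k) ?_ (fun y => ih y) x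
            exact Box.convex (phi_box hG ha hb F h0 h1 k)
              (phi_box hG ha hb F zero_le_one le_rfl k) t0 t1
        _ ≤ _ := hG.conv _ _ (phi_box hG ha hb F h0 h1 k)
              (phi_box hG ha hb F zero_le_one le_rfl k) (phi_mono_u hG ha hb hab F h0 h1 k)
              θ t0 t1 x
    · apply le_of_eq; ring

open Classical in
/-- Intermediate solutions of the system truncated to a finite set. -/
theorem truncated (ha : Box a) (hb : Box b) (hab : a ≤ b) (fa : G a = a) (fb : G b = b)
    (F : Finset X)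
    (lb : Tendsto (fun k => G^[k] (fun x => if x ∈ F then 0 else b x)) atTop (𝓝 b))
    (x0 : X) (c : ℝ) (hc1 : a x0 < c) (hc2 : c < b x0) :
    ∃ s : X → ℝ, Box s ∧ (∀ x ∈ F, G s x = s x) ∧ a ≤ s ∧ s ≤ b ∧ s x0 = c := by
  have hlim : ∀ u ∈ Icc (0 : ℝ) 1, ∃ s : X → ℝ, Tendsto (fun k => phi G a b F u k) atTop (𝓝 s) ∧
      ∀ k, phi G a b F u k ≤ s := by
    intro u hu
    have hm : ∀ x, Monotone fun k => phi G a b F u k x := fun x =>
      monotone_nat_of_le_succ fun k => phi_mono hG ha hb hab fa F hu.1 hu.2 k x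
    have hbd : ∀ x, BddAbove (range fun k => phi G a b F u k x) := fun x =>
      ⟨1, by rintro _ ⟨k, rfl⟩; exact (phi_box hG ha hb F hu.1 hu.2 k x).2⟩
    refine ⟨fun x => ⨆ k, phi G a b F u k x, ?_, ?_⟩
    · rw [tendsto_pi_nhds]
      exact fun x => tendsto_atTop_ciSup (hm x) (hbd x)
    · intro k x
      exact le_ciSup (hbd x) k
  choose! Phi hPhi hPhi' using hlim
  have hPx : ∀ u ∈ Icc (0 : ℝ) 1, ∀ x, Tendsto (fun k => phi G a b F u k x) atTop
      (𝓝 (Phi u x)) := fun u hu x => (tendsto_pi_nhds.mp (hPhi u hu)) x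
  have hPbox : ∀ u ∈ Icc (0 : ℝ) 1, Box (Phi u) := by
    intro u hu x
    refine ⟨ge_of_tendsto' (hPx u hu x) fun k => (phi_box hG ha hb F hu.1 hu.2 k x).1,
      le_of_tendsto' (hPx u hu x) fun k => (phi_box hG ha hb F hu.1 hu.2 k x).2⟩
  set A : Set ℝ := {u | u ∈ Icc (0 : ℝ) 1 ∧ Phi u x0 ≤ c} with hA
  have hA0 : (0 : ℝ) ∈ A := by
    refine ⟨⟨le_rfl, zero_le_one⟩, ?_⟩
    have : Phi 0 x0 ≤ a x0 :=
      le_of_tendsto' (hPx 0 ⟨le_rfl, zero_le_one⟩ x0) fun k => phi_zero_le hG ha hb fa F k x0
    linarith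
  have hAb : BddAbove A := ⟨1, fun u hu => hu.1.2⟩
  set v := sSup A with hv
  have hv0 : 0 ≤ v := le_csSup hAb hA0
  have hv1 : v ≤ 1 := csSup_le ⟨0, hA0⟩ fun u hu => hu.1.2
  have hvI : v ∈ Icc (0 : ℝ) 1 := ⟨hv0, hv1⟩
  have hvcl : v ∈ closure A := csSup_mem_closure ⟨0, hA0⟩ hAb
  have hvc : Phi v x0 ≤ c := by
    refine le_of_tendsto' (hPx v hvI x0) fun k => ?_
    have h1 := (tendsto_pi_nhds.mp (phi_cont hG ha hb F k v hvI)) x0
    have h2 : Tendsto (fun u => phi G a b F u k x0) (𝓝[A] v) (𝓝 (phi G a b F v k x0)) :=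
      h1.mono_left (nhdsWithin_mono _ fun u hu => hu.1)
    haveI : (𝓝[A] v).NeBot := mem_closure_iff_nhdsWithin_neBot.mp hvcl
    refine le_of_tendsto h2 ?_
    filter_upwards [self_mem_nhdsWithin] with u hu
    exact (hPhi' u hu.1 k x0).trans hu.2
  have hP1 : b x0 ≤ Phi 1 x0 := by
    have h1 := (tendsto_pi_nhds.mp lb) x0
    exact le_of_tendsto_of_tendsto' h1 (hPx 1 ⟨zero_le_one, le_rfl⟩ x0) fun k =>
      le_phi_one hG ha hb fb F k x0
  have hvlt : v < 1 := by
    rcases hv1.lt_or_eq with h | h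
    · exact h
    · exfalso
      rw [h] at hvc
      linarith
  have hvc' : c ≤ Phi v x0 := by
    by_contra hcon
    push Not at hcon
    -- choose θ small
    obtain ⟨θ, hθ0, hθ1, hθ⟩ : ∃ θ : ℝ, 0 < θ ∧ θ ≤ 1 ∧ Phi v x0 + θ < c := by
      refine ⟨min 1 ((c - Phi v x0) / 2), ?_, min_le_left _ _, ?_⟩
      · apply lt_min one_pos; linarith
      · have := min_le_right 1 ((c - Phi v x0) / 2)
        linarith
    have hu0 : 0 ≤ (1 - θ) * v + θ := by nlinarith
    have hu1 : (1 - θ) * v + θ ≤ 1 := by nlinarith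
    have hugt : v < (1 - θ) * v + θ := by nlinarith
    have hnot : (1 - θ) * v + θ ∉ A := fun hmem => absurd (le_csSup hAb hmem) (not_le.mpr hugt)
    have hgt : c < Phi ((1 - θ) * v + θ) x0 := by
      by_contra h; exact hnot ⟨⟨hu0, hu1⟩, not_lt.mp h⟩
    have hle : Phi ((1 - θ) * v + θ) x0 ≤ Phi v x0 + θ := by
      refine le_of_tendsto' (hPx _ ⟨hu0, hu1⟩ x0) fun k => ?_
      have h1 := phi_conv hG ha hb hab F hv0 hv1 hθ0.le hθ1 k x0
      have h2 := hPhi' v hvI k x0
      have h3 := (phi_box hG ha hb F zero_le_one le_rfl k x0).2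
      have h4 := (phi_box hG ha hb F hv0 hv1 k x0).1
      nlinarith
    linarith
  refine ⟨Phi v, hPbox v hvI, ?_, ?_, ?_, le_antisymm hvc hvc'⟩
  · intro x hx
    have h1 := hG.cont atTop (fun k => phi G a b F v k) (Phi v)
      (Eventually.of_forall fun k => phi_box hG ha hb F hv0 hv1 k) (hPbox v hvI) (hPhi v hvI)
    have h2 := (tendsto_pi_nhds.mp h1) x
    have h3 : Tendsto (fun k => phi G a b F v (k + 1) x) atTop (𝓝 (Phi v x)) :=
      (tendsto_add_atTop_iff_nat 1).mpr (hPx v hvI x)
    have h4 : (fun k => phi G a b F v (k + 1) x) = fun k => G (phi G a b F v k) x := by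
      funext k; simp only [phi, if_pos hx]
    rw [h4] at h3
    exact tendsto_nhds_unique h2 h3
  · intro x
    exact (le_phi hG ha hb hab fa F hv0 hv1 0 x).trans (hPhi' v hvI 0 x)
  · intro x
    exact le_of_tendsto' (hPx v hvI x) fun k => phi_le_b hG ha hb hab fb F hv0 hv1 k x

open Classical in
/-- Intermediate values between `a` and `b` are taken by fixed points, if `b` is the limit of its
truncations on the finite sets on which `a < 1`. -/
theorem core (ha : Box a) (hb : Box b) (hab : a ≤ b) (fa : G a = a) (fb : G b = b)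
    (lb : ∀ F : Finset X, (∀ x ∈ F, a x < 1) →
      Tendsto (fun k => G^[k] (fun x => if x ∈ F then 0 else b x)) atTop (𝓝 b))
    (x0 : X) (c : ℝ) (hc1 : a x0 < c) (hc2 : c < b x0) :
    ∃ s : X → ℝ, Box s ∧ G s = s ∧ a ≤ s ∧ s ≤ b ∧ s x0 = c := by
  have htr : ∀ F : Finset X, ∃ s : X → ℝ, Box s ∧ (∀ x ∈ F, a x < 1 → G s x = s x) ∧ a ≤ s ∧
      s ≤ b ∧ s x0 = c := by
    intro F
    obtain ⟨s, h1, h2, h3, h4, h5⟩ := truncated hG ha hb hab fa fb (F.filter fun x => a x < 1)
      (lb _ fun x hx => (Finset.mem_filter.1 hx).2) x0 c hc1 hc2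
    exact ⟨s, h1, fun x hx hx1 => h2 x (Finset.mem_filter.2 ⟨hx, hx1⟩), h3, h4, h5⟩
  choose σ hσ using htr
  let U : Ultrafilter (Finset X) := Ultrafilter.of atTop
  have hK : IsCompact (Set.pi univ fun _ : X => Icc (0 : ℝ) 1) := isCompact_univ_pi fun _ =>
    isCompact_Icc
  have hmem : ∀ F, σ F ∈ Set.pi univ fun _ : X => Icc (0 : ℝ) 1 := fun F x _ => (hσ F).1 x
  obtain ⟨s, hsK, hs⟩ := hK.ultrafilter_le_nhds' (U.map σ) (by
    rw [Ultrafilter.mem_map]
    exact Filter.Eventually.of_forall (f := (U : Filter (Finset X))) hmem)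
  have hs' : Tendsto σ (U : Filter (Finset X)) (𝓝 s) := hs
  have hbox : Box s := fun x => hsK x (mem_univ x)
  have hUle : (U : Filter (Finset X)) ≤ atTop := Ultrafilter.of_le _
  have hx : ∀ x, Tendsto (fun F => σ F x) (U : Filter (Finset X)) (𝓝 (s x)) :=
    fun x => (tendsto_pi_nhds.mp hs') x
  have has : a ≤ s := fun x => ge_of_tendsto' (hx x) fun F => (hσ F).2.2.1 x
  refine ⟨s, hbox, ?_, has, ?_, ?_⟩
  · have h1 := hG.cont (U : Filter (Finset X)) σ s
      (Eventually.of_forall fun F => (hσ F).1) hbox hs'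
    funext x
    rcases (ha x).2.lt_or_eq with hax | hax
    · have h2 := (tendsto_pi_nhds.mp h1) x
      have h3 : ∀ᶠ F in (U : Filter (Finset X)), G (σ F) x = σ F x := by
        apply hUle
        filter_upwards [eventually_ge_atTop ({x} : Finset X)] with F hF
        exact (hσ F).2.1 x (hF (Finset.mem_singleton_self x)) hax
      exact tendsto_nhds_unique (h2.congr' h3) (hx x)
    · have h2 : s x = 1 := le_antisymm (hbox x).2 (hax ▸ has x)
      have h3 : a x ≤ G s x := by
        calc a x = G a x := by rw [fa]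
          _ ≤ G s x := hG.mono _ _ ha hbox has x
      rw [h2]
      exact le_antisymm ((hG.box _ hbox) x).2 (hax ▸ h3)
  · intro x
    exact le_of_tendsto' (hx x) fun F => (hσ F).2.2.2.1 x
  · exact tendsto_nhds_unique (hx x0)
      (tendsto_const_nhds.congr fun F => ((hσ F).2.2.2.2).symm)

end

end Pool.Agent.V1138.BR
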