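import Pool.Agent.H632R3.BranchLim
import Pool.Agent.V1138.BR.Core

/-!
# Extinction in an arbitrary set of types
-/

open Filter Topology Set MeasureTheory ProbabilityTheory
open scoped ENNReal

set_option linter.unusedSectionVars false

namespace Pool.Agent.V1138.BR

open Pool.Agent.H632R3.Branch hiding chi chi_box mon_chi aSeq aSeq_box Zev Zev_meas mon_chi_pop
  Rev Rev_meas Rev_succ stay Vop Vop_cont prob_E Cev Dev Rev_anti mem_Cev Cev_mono Cev_meas
  Dev_meas Zev_empty chi_empty Vop_zero_empty alpha beta alpha_box beta_box tendsto_E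
  aSeq_tendsto prob_C tendsto_C alpha_iter_tendsto prob_D phi_box phi_mono phi_le_b phi_zero_le
  le_phi_one phi_cont phi_mono_u phi_conv truncated core phi

noncomputable section

variable {X : Type} [Countable X]

open Classical in
/-- Indicator of the complement of `F`. -/
def chi (F : Set X) (x : X) : ℝ := if x ∈ F then 0 else 1

theorem chi_box (F : Set X) : Box (chi F) := by
  intro x; unfold chi; split_ifs <;> norm_num

open Classical in
theorem mon_chi (F : Set X) (z : X →₀ ℕ) :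
    mon (chi F) z = if ∀ y ∈ F, z y = 0 then 1 else 0 := by
  unfold mon Finsupp.prod
  split_ifs with h
  · refine Finset.prod_eq_one fun y hy => ?_
    have : y ∉ F := fun hyF => (Finsupp.mem_support_iff.mp hy) (h y hyF)
    simp [chi, this]
  · push Not at h
    obtain ⟨y, hyF, hy⟩ := h
    refine Finset.prod_eq_zero (Finsupp.mem_support_iff.mpr hy) ?_
    simp [chi, hyF, hy]

/-- `aSeq μ F j x` is the probability of avoiding `F` in generations `0, ..., j`. -/
def aSeq (μ : X → PMF (X →₀ ℕ)) (F : Set X) : ℕ → X → ℝ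
  | 0 => chi F
  | j + 1 => fun x => chi F x * gen μ (aSeq μ F j) x

theorem aSeq_box (μ : X → PMF (X →₀ ℕ)) (F : Set X) (j : ℕ) : Box (aSeq μ F j) := by
  induction j with
  | zero => exact chi_box F
  | succ j ih => exact (chi_box F).mul ((gen_good μ).box _ ih)

/-- The event that no type of `F` is present in generation `n`. -/
def Zev (x : X) (n : ℕ) (F : Set X) : Set (Sample X) := {ω | ∀ y ∈ F, pop x ω n y = 0}

theorem Zev_meas (x : X) (n : ℕ) (F : Set X) : MeasurableSet (Zev x n F) :=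
  pop_meas' x n (MeasurableSet.of_discrete (s := {z : X →₀ ℕ | ∀ y ∈ F, z y = 0}))

open Classical in
theorem mon_chi_pop (x : X) (n : ℕ) (F : Set X) (ω : Sample X) :
    ENNReal.ofReal (mon (chi F) (pop x ω n)) = (Zev x n F).indicator 1 ω := by
  rw [mon_chi]
  by_cases h : ω ∈ Zev x n F
  · have h' : ∀ y ∈ F, pop x ω n y = 0 := h
    rw [indicator_of_mem h, if_pos h']; simp
  · have h' : ¬ ∀ y ∈ F, pop x ω n y = 0 := h
    rw [indicator_of_notMem h, if_neg h']; simp

/-- Avoiding `F` in generations `K, ..., K+j`. -/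
def Rev (x : X) (K j : ℕ) (F : Set X) : Set (Sample X) :=
  {ω | ∀ n, K ≤ n → n ≤ K + j → ω ∈ Zev x n F}

theorem Rev_meas (x : X) (K j : ℕ) (F : Set X) : MeasurableSet (Rev x K j F) := by
  have : Rev x K j F = ⋂ n, ⋂ (_ : K ≤ n), ⋂ (_ : n ≤ K + j), Zev x n F := by
    ext ω; simp [Rev]
  rw [this]
  exact MeasurableSet.iInter fun n => MeasurableSet.iInter fun _ => MeasurableSet.iInter fun _ =>
    Zev_meas x n F

theorem Rev_succ (x : X) (K j : ℕ) (F : Set X) (ω : Sample X) :
    ω ∈ Rev x K (j + 1) F ↔ ω ∈ Zev x K F ∧ ω ∈ Rev x (K + 1) j F := by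
  constructor
  · intro h
    exact ⟨h K le_rfl (by omega), fun n h1 h2 => h n (by omega) (by omega)⟩
  · rintro ⟨h1, h2⟩ n h3 h4
    rcases h3.lt_or_eq with h5 | h5
    · exact h2 n h5 (by omega)
    · exact h5 ▸ h1

theorem stay (μ : X → PMF (X →₀ ℕ)) (x : X) (F : Set X) (j K : ℕ)
    (Ψ : Sample X → ℝ≥0∞) (hΨ : Measurable[past X K] Ψ) :
    ∫⁻ ω, Ψ ω * (Rev x K j F).indicator 1 ω ∂(law μ) =
      ∫⁻ ω, Ψ ω * ENNReal.ofReal (mon (aSeq μ F j) (pop x ω K)) ∂(law μ) := by
  classical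
  induction j generalizing K Ψ with
  | zero =>
    refine lintegral_congr fun ω => ?_
    have h1 : (Rev x K 0 F).indicator (1 : Sample X → ℝ≥0∞) ω = (Zev x K F).indicator 1 ω := by
      have : Rev x K 0 F = Zev x K F := by
        ext ω
        constructor
        · intro h; exact h K le_rfl le_rfl
        · intro h n h3 h4
          have : n = K := by omega
          exact this ▸ h
      rw [this]
    rw [h1, ← mon_chi_pop]
    rfl
  | succ j ih =>
    have h1 : ∀ ω : Sample X, Ψ ω * (Rev x K (j + 1) F).indicator 1 ω =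
        (Ψ ω * ENNReal.ofReal (mon (chi F) (pop x ω K))) * (Rev x (K + 1) j F).indicator 1 ω := by
      intro ω
      rw [mon_chi_pop]
      by_cases ha : ω ∈ Zev x K F <;> by_cases hb : ω ∈ Rev x (K + 1) j F
      · have : ω ∈ Rev x K (j + 1) F := (Rev_succ x K j F ω).mpr ⟨ha, hb⟩
        simp [ha, hb, this]
      · have : ω ∉ Rev x K (j + 1) F := fun h => hb ((Rev_succ x K j F ω).mp h).2
        simp [hb, this]
      · have : ω ∉ Rev x K (j + 1) F := fun h => ha ((Rev_succ x K j F ω).mp h).1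
        simp [ha, this]
      · have : ω ∉ Rev x K (j + 1) F := fun h => ha ((Rev_succ x K j F ω).mp h).1
        simp [ha, this]
    simp_rw [h1]
    have hm : Measurable[past X K] fun ω => Ψ ω * ENNReal.ofReal (mon (chi F) (pop x ω K)) :=
      hΨ.mul (meas_mon_pop (chi F) x K)
    rw [ih (K + 1) _ (hm.mono (past_mono (Nat.le_succ K)) le_rfl),
      one_step μ x (aSeq_box μ F j) K _ hm]
    refine lintegral_congr fun ω => ?_
    rw [mul_assoc, ← ENNReal.ofReal_mul (mon_nonneg (chi_box F) _), ← mon_mul]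
    rfl

/-- The operator giving probabilities of events after avoiding `F0` at generation `k`. -/
def Vop (μ : X → PMF (X →₀ ℕ)) (k : ℕ) (F0 : Set X) (w : X → ℝ) : X → ℝ :=
  (gen μ)^[k] fun y => chi F0 y * w y

theorem Vop_cont (μ : X → PMF (X →₀ ℕ)) (k : ℕ) (F0 : Set X) {α : Type} (l : Filter α)
    (s : α → X → ℝ) (t : X → ℝ) (hs : ∀ a, Box (s a)) (ht : Box t) (hst : Tendsto s l (𝓝 t)) :
    Tendsto (fun a => Vop μ k F0 (s a)) l (𝓝 (Vop μ k F0 t)) := by
  refine iter_gen_cont μ k l _ _ (fun a => (chi_box F0).mul (hs a)) ((chi_box F0).mul ht) ?_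
  rw [tendsto_pi_nhds] at hst ⊢
  exact fun x => (hst x).const_mul _

/-- Probability of avoiding `F0` at generation `k` and `F` during `k+j, ..., k+j+i`. -/
theorem prob_E (μ : X → PMF (X →₀ ℕ)) (x : X) (k : ℕ) (F0 F : Set X) (j i : ℕ) :
    (law μ).real (Zev x k F0 ∩ Rev x (k + j) i F) =
      Vop μ k F0 ((gen μ)^[j] (aSeq μ F i)) x := by
  have hb1 : Box ((gen μ)^[j] (aSeq μ F i)) := iter_gen_box μ j (aSeq_box μ F i)
  have hb2 : Box fun y => chi F0 y * ((gen μ)^[j] (aSeq μ F i)) y := (chi_box F0).mul hb1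
  have h1 : (law μ) (Zev x k F0 ∩ Rev x (k + j) i F) =
      ∫⁻ ω, ENNReal.ofReal (mon (chi F0) (pop x ω k)) * (Rev x (k + j) i F).indicator 1 ω
        ∂(law μ) := by
    rw [← lintegral_indicator_one ((Zev_meas x k F0).inter (Rev_meas x (k + j) i F))]
    refine lintegral_congr fun ω => ?_
    rw [mon_chi_pop]
    by_cases ha : ω ∈ Zev x k F0 <;> by_cases hb : ω ∈ Rev x (k + j) i F <;> simp [ha, hb]
  have h2 : (law μ) (Zev x k F0 ∩ Rev x (k + j) i F) =
      ENNReal.ofReal (Vop μ k F0 ((gen μ)^[j] (aSeq μ F i)) x) := by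
    rw [h1, stay μ x F i (k + j) _ ((meas_mon_pop (chi F0) x k).mono
      (past_mono (Nat.le_add_right k j)) le_rfl),
      steps μ x k j (aSeq_box μ F i) _ (meas_mon_pop (chi F0) x k)]
    have e1 : ∀ ω : Sample X, ENNReal.ofReal (mon (chi F0) (pop x ω k)) *
        ENNReal.ofReal (mon ((gen μ)^[j] (aSeq μ F i)) (pop x ω k)) =
        1 * ENNReal.ofReal (mon (fun y => chi F0 y * ((gen μ)^[j] (aSeq μ F i)) y)
          (pop x ω (0 + k))) := by
      intro ω
      rw [← ENNReal.ofReal_mul (mon_nonneg (chi_box F0) _), ← mon_mul, one_mul, zero_add]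
    simp_rw [e1]
    rw [steps μ x 0 k hb2 (fun _ => 1) measurable_const]
    have e2 : ∀ ω : Sample X, pop x ω 0 = Finsupp.single x 1 := fun _ => rfl
    simp_rw [e2, mon_single, one_mul]
    rw [lintegral_const, measure_univ, mul_one]
    rfl
  rw [Measure.real, h2, ENNReal.toReal_ofReal]
  exact (iter_gen_box μ k hb2 x).1

/-- Avoiding `F` in all generations from `K` on. -/
def Cev (x : X) (K : ℕ) (F : Set X) : Set (Sample X) := ⋂ i, Rev x K i F

/-- Eventually avoiding `F`. -/
def Dev (x : X) (F : Set X) : Set (Sample X) := ⋃ K, Cev x K F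

theorem Rev_anti (x : X) (K : ℕ) (F : Set X) : Antitone fun i => Rev x K i F := by
  intro i i' h ω hω n h1 h2
  exact hω n h1 (by omega)

theorem mem_Cev (x : X) (K : ℕ) (F : Set X) (ω : Sample X) :
    ω ∈ Cev x K F ↔ ∀ n, K ≤ n → ω ∈ Zev x n F := by
  simp only [Cev, mem_iInter]
  constructor
  · intro h n hn
    exact h n n hn (by omega)
  · intro h i n h1 _
    exact h n h1

theorem Cev_mono (x : X) (F : Set X) : Monotone fun K => Cev x K F := by
  intro K K' h ω hω
  rw [mem_Cev] at hω ⊢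
  exact fun n hn => hω n (h.trans hn)

theorem Cev_meas (x : X) (K : ℕ) (F : Set X) : MeasurableSet (Cev x K F) :=
  MeasurableSet.iInter fun i => Rev_meas x K i F

theorem Dev_meas (x : X) (F : Set X) : MeasurableSet (Dev x F) :=
  MeasurableSet.iUnion fun K => Cev_meas x K F

theorem mem_Dev (x : X) (F : Set X) (ω : Sample X) :
    ω ∈ Dev x F ↔ ∃ K, ∀ n, K ≤ n → ω ∈ Zev x n F := by
  simp only [Dev, mem_iUnion, mem_Cev]

theorem Zev_empty (x : X) (n : ℕ) : Zev x n (∅ : Set X) = univ := by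
  ext ω; simp [Zev]

theorem chi_empty (y : X) : chi (∅ : Set X) y = 1 := by simp [chi]

theorem Vop_zero_empty (μ : X → PMF (X →₀ ℕ)) (w : X → ℝ) : Vop μ 0 ∅ w = w := by
  funext y; simp [Vop, chi_empty]

/-- Probability of avoiding `F` forever. -/
def alpha (μ : X → PMF (X →₀ ℕ)) (F : Set X) (x : X) : ℝ := (law μ).real (Cev x 0 F)

/-- Probability of eventually avoiding `F`. -/
def beta (μ : X → PMF (X →₀ ℕ)) (F : Set X) (x : X) : ℝ := (law μ).real (Dev x F)

theorem alpha_box (μ : X → PMF (X →₀ ℕ)) (F : Set X) : Box (alpha μ F) := fun _ =>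
  ⟨measureReal_nonneg, measureReal_le_one⟩

theorem beta_box (μ : X → PMF (X →₀ ℕ)) (F : Set X) : Box (beta μ F) := fun _ =>
  ⟨measureReal_nonneg, measureReal_le_one⟩

theorem tendsto_E (μ : X → PMF (X →₀ ℕ)) (x : X) (k : ℕ) (F0 F : Set X) (j : ℕ) :
    Tendsto (fun i => (law μ).real (Zev x k F0 ∩ Rev x (k + j) i F)) atTop
      (𝓝 ((law μ).real (Zev x k F0 ∩ Cev x (k + j) F))) := by
  have h := real_iInter μ (fun i => Zev x k F0 ∩ Rev x (k + j) i F)
    (fun i => (Zev_meas x k F0).inter (Rev_meas x (k + j) i F))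
    (fun i i' hi => inter_subset_inter_right _ (Rev_anti x (k + j) F hi))
  rwa [← inter_iInter] at h

theorem aSeq_tendsto (μ : X → PMF (X →₀ ℕ)) (F : Set X) :
    Tendsto (aSeq μ F) atTop (𝓝 (alpha μ F)) := by
  rw [tendsto_pi_nhds]
  intro x
  have h := tendsto_E μ x 0 ∅ F 0
  simp only [prob_E] at h
  simp only [Vop_zero_empty, Zev_empty, univ_inter, Function.iterate_zero, id] at h
  exact h

theorem prob_C (μ : X → PMF (X →₀ ℕ)) (x : X) (k : ℕ) (F0 F : Set X) (j : ℕ) :
    (law μ).real (Zev x k F0 ∩ Cev x (k + j) F) = Vop μ k F0 ((gen μ)^[j] (alpha μ F)) x := by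
  have h := tendsto_E μ x k F0 F j
  simp only [prob_E] at h
  have h2 := Vop_cont μ k F0 atTop (fun i => (gen μ)^[j] (aSeq μ F i)) ((gen μ)^[j] (alpha μ F))
    (fun i => iter_gen_box μ j (aSeq_box μ F i)) (iter_gen_box μ j (alpha_box μ F))
    (iter_gen_cont μ j atTop _ _ (aSeq_box μ F) (alpha_box μ F) (aSeq_tendsto μ F))
  exact tendsto_nhds_unique h ((tendsto_pi_nhds.mp h2) x)

theorem tendsto_C (μ : X → PMF (X →₀ ℕ)) (x : X) (k : ℕ) (F0 F : Set X) :
    Tendsto (fun j => (law μ).real (Zev x k F0 ∩ Cev x (k + j) F)) atTop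
      (𝓝 ((law μ).real (Zev x k F0 ∩ Dev x F))) := by
  have h := real_iUnion μ (fun j => Zev x k F0 ∩ Cev x (k + j) F)
    (fun j j' hj => inter_subset_inter_right _ (Cev_mono x F (by omega)))
  have h2 : ⋃ j, Zev x k F0 ∩ Cev x (k + j) F = Zev x k F0 ∩ Dev x F := by
    rw [← inter_iUnion]
    congr 1
    ext ω
    simp only [Dev, mem_iUnion]
    constructor
    · rintro ⟨j, hj⟩; exact ⟨_, hj⟩
    · rintro ⟨K, hK⟩; exact ⟨K, Cev_mono x F (by omega : K ≤ k + K) hK⟩
  rwa [h2] at h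

theorem alpha_iter_tendsto (μ : X → PMF (X →₀ ℕ)) (F : Set X) :
    Tendsto (fun j => (gen μ)^[j] (alpha μ F)) atTop (𝓝 (beta μ F)) := by
  rw [tendsto_pi_nhds]
  intro x
  have h := tendsto_C μ x 0 ∅ F
  simp only [prob_C] at h
  simp only [Vop_zero_empty, Zev_empty, univ_inter] at h
  exact h

theorem prob_D (μ : X → PMF (X →₀ ℕ)) (x : X) (k : ℕ) (F0 F : Set X) :
    (law μ).real (Zev x k F0 ∩ Dev x F) = Vop μ k F0 (beta μ F) x := by
  have h := tendsto_C μ x k F0 F
  simp only [prob_C] at h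
  have h2 := Vop_cont μ k F0 atTop (fun j => (gen μ)^[j] (alpha μ F)) (beta μ F)
    (fun j => iter_gen_box μ j (alpha_box μ F)) (beta_box μ F) (alpha_iter_tendsto μ F)
  exact tendsto_nhds_unique h ((tendsto_pi_nhds.mp h2) x)

theorem beta_fixed (μ : X → PMF (X →₀ ℕ)) (F : Set X) : gen μ (beta μ F) = beta μ F := by
  funext x
  have h := prob_D μ x 1 ∅ F
  rw [Zev_empty, univ_inter] at h
  have h2 : Vop μ 1 ∅ (beta μ F) = gen μ (beta μ F) := by
    simp [Vop, chi_empty]
  rw [h2] at h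
  exact h.symm

theorem beta_anti (μ : X → PMF (X →₀ ℕ)) {F F' : Set X} (h : F ⊆ F') :
    beta μ F' ≤ beta μ F := by
  intro x
  refine measureReal_mono fun ω hω => ?_
  rw [mem_Dev] at hω ⊢
  obtain ⟨K, hK⟩ := hω
  exact ⟨K, fun n hn y hy => hK n hn y (h hy)⟩

open Classical in
theorem beta_trunc (μ : X → PMF (X →₀ ℕ)) (F A : Set X) (hFA : F ⊆ A) :
    Tendsto (fun k => (gen μ)^[k] (fun x => if x ∈ F then 0 else beta μ A x)) atTop
      (𝓝 (beta μ A)) := by
  rw [tendsto_pi_nhds]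
  intro x
  have e1 : (fun x => if x ∈ F then 0 else beta μ A x) = fun x => chi F x * beta μ A x := by
    funext x; unfold chi; split_ifs <;> simp
  have e2 : ∀ k, ((gen μ)^[k] (fun x => if x ∈ F then 0 else beta μ A x)) x =
      (law μ).real (Zev x k F ∩ Dev x A) := by
    intro k; rw [prob_D, e1]; rfl
  simp_rw [e2]
  have h1 : Tendsto (fun k => (law μ).real (Cev x k F ∩ Dev x A)) atTop
      (𝓝 ((law μ).real (Dev x A))) := by
    have h := real_iUnion μ (fun k => Cev x k F ∩ Dev x A)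
      (fun j j' hj => inter_subset_inter_left _ (Cev_mono x F hj))
    have h2 : ⋃ k, Cev x k F ∩ Dev x A = Dev x A := by
      rw [← iUnion_inter]
      refine inter_eq_right.mpr fun ω hω => ?_
      rw [mem_Dev] at hω
      obtain ⟨K, hK⟩ := hω
      rw [mem_iUnion]
      refine ⟨K, ?_⟩
      rw [mem_Cev]
      exact fun n hn y hy => hK n hn y (hFA hy)
    rwa [h2] at h
  refine tendsto_of_tendsto_of_tendsto_of_le_of_le h1 tendsto_const_nhds ?_ ?_
  · intro k
    refine measureReal_mono (inter_subset_inter_left _ fun ω hω => ?_)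
    rw [mem_Cev] at hω
    exact hω k le_rfl
  · intro k
    exact measureReal_mono inter_subset_right

end

end Pool.Agent.V1138.BR
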