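import Pool.Agent.V1138.BR.Mart

/-!
# Finite sets of fixed points
-/

open Filter Topology Set MeasureTheory ProbabilityTheory
open scoped ENNReal Pool.Agent.H632R3.Branch

set_option linter.unusedSectionVars false

namespace Pool.Agent.V1138.BR

open Pool.Agent.H632R3.Branch (GoodOp Box mon gen Sample pop law gen_good)

noncomputable section

variable {X : Type} [Countable X]

/-- If the set of fixed points is finite, then every fixed point is the vector of the
probabilities of extinction in some set. -/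
theorem exists_beta (μ : X → PMF (X →₀ ℕ)) (hfin : {s : X → ℝ | Box s ∧ gen μ s = s}.Finite)
    {s : X → ℝ} (hs : Box s) (fs : gen μ s = s) : ∃ A : Set X, s = beta μ A := by
  classical
  -- the product martingale has limits zero and one
  have h01 : ∀ x, ∀ᵐ ω ∂(law μ), Minf μ s x ω = 0 ∨ Minf μ s x ω = 1 := by
    haveI := hfin.to_subtype
    obtain ⟨k, l, hkl, h⟩ := Finite.exists_ne_map_eq_of_infinite
      (fun k : ℕ => (⟨mom μ s k, mom_box μ hs fs k, mom_fixed μ hs fs k⟩ :
        {s : X → ℝ | Box s ∧ gen μ s = s}))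
    have h' : mom μ s k = mom μ s l := congrArg Subtype.val h
    intro x
    rcases lt_or_gt_of_ne hkl with h1 | h1
    · exact zero_or_one μ hs fs h1 h' x
    · exact zero_or_one μ hs fs h1 h'.symm x
  -- the sets
  let A : ℕ → Set X := fun m => {y | s y ≤ 1 - 1 / ((m : ℝ) + 1)}
  have hApos : ∀ m : ℕ, (0 : ℝ) < 1 / ((m : ℝ) + 1) := fun m => by positivity
  have hA : ∀ m n, m ≤ n → A m ⊆ A n := by
    intro m n hmn y hy
    have hy' : s y ≤ 1 - 1 / ((m : ℝ) + 1) := hy
    have h1 : (1 : ℝ) / ((n : ℝ) + 1) ≤ 1 / ((m : ℝ) + 1) := by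
      apply one_div_le_one_div_of_le (by positivity)
      have : (m : ℝ) ≤ n := by exact_mod_cast hmn
      linarith
    change s y ≤ 1 - 1 / ((n : ℝ) + 1)
    linarith
  have hle : ∀ m, s ≤ beta μ (A m) := fun m => le_beta μ hs fs h01 (hApos m)
  -- the extinction probabilities become constant
  obtain ⟨m₀, hm₀⟩ : ∃ m₀, ∀ m, m₀ ≤ m → beta μ (A m) = beta μ (A m₀) := by
    have hr : (range fun m => beta μ (A m)).Finite := by
      refine hfin.subset ?_
      rintro _ ⟨m, rfl⟩
      exact ⟨beta_box μ _, beta_fixed μ _⟩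
    obtain ⟨b, ⟨⟨m₀, rfl⟩, hb⟩⟩ := hr.exists_minimal (range_nonempty _)
    refine ⟨m₀, fun m hm => ?_⟩
    have h1 : beta μ (A m) ≤ beta μ (A m₀) := beta_anti μ (hA _ _ hm)
    exact le_antisymm h1 (hb ⟨m, rfl⟩ h1)
  refine ⟨A m₀, ?_⟩
  by_contra hne
  obtain ⟨x₀, hx₀⟩ : ∃ x₀, s x₀ < beta μ (A m₀) x₀ := by
    by_contra hcon
    push Not at hcon
    exact hne (le_antisymm (hle m₀) hcon)
  have hlb : ∀ F : Finset X, (∀ x ∈ F, s x < 1) →
      Tendsto (fun k => (gen μ)^[k] (fun x => if x ∈ F then 0 else beta μ (A m₀) x)) atTop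
        (𝓝 (beta μ (A m₀))) := by
    intro F hF
    obtain ⟨m, hm, hFm⟩ : ∃ m, m₀ ≤ m ∧ ∀ x ∈ F, x ∈ A m := by
      have h1 : ∀ x ∈ F, ∀ᶠ m : ℕ in atTop, x ∈ A m := by
        intro x hx
        have h2 : Tendsto (fun m : ℕ => 1 - 1 / ((m : ℝ) + 1)) atTop (𝓝 (1 - 0)) :=
          tendsto_const_nhds.sub tendsto_one_div_add_atTop_nhds_zero_nat
        rw [sub_zero] at h2
        filter_upwards [h2.eventually_const_lt (hF x hx)] with m hm
        exact hm.le
      have h3 : ∀ᶠ m : ℕ in atTop, ∀ x ∈ F, x ∈ A m := (Filter.eventually_all_finset F).2 h1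
      obtain ⟨m, hm1, hm2⟩ := ((eventually_ge_atTop m₀).and h3).exists
      exact ⟨m, hm1, hm2⟩
    have h4 := beta_trunc μ (F : Set X) (A m) (fun x hx => hFm x (Finset.mem_coe.1 hx))
    rw [hm₀ m hm] at h4
    simpa using h4
  have hcore := fun c h1 h2 => core (gen_good μ) hs (beta_box μ (A m₀)) (hle m₀) fs
    (beta_fixed μ (A m₀)) hlb x₀ c h1 h2
  choose t ht using fun c : Ioo (s x₀) (beta μ (A m₀) x₀) => hcore c.1 c.2.1 c.2.2
  have hinj : Function.Injective fun c : Ioo (s x₀) (beta μ (A m₀) x₀) =>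
      (⟨t c, (ht c).1, (ht c).2.1⟩ : {s : X → ℝ | Box s ∧ gen μ s = s}) := by
    intro c c' h
    have h1 : t c = t c' := congrArg Subtype.val h
    apply Subtype.ext
    rw [← (ht c).2.2.2.2, ← (ht c').2.2.2.2, h1]
  haveI := hfin.to_subtype
  have h5 := Finite.of_injective _ hinj
  exact (Ioo_infinite hx₀) (Set.toFinite _)

end

end Pool.Agent.V1138.BR
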