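import Pool.Agent.V1138.BR.Ext

/-!
# The product martingale of a fixed point
-/

open Filter Topology Set MeasureTheory ProbabilityTheory
open scoped ENNReal Pool.Agent.H632R3.Branch

set_option linter.unusedSectionVars false

namespace Pool.Agent.V1138.BR

open Pool.Agent.H632R3.Branch (GoodOp Box mon gen Sample pop law past past_le past_mono pop_meas
  pop_meas' mon_nonneg mon_le_one gen_good gen_summable one_step steps mon_single box_zero
  iter_gen_box iter_gen_cont meas_mon_pop instMS instDMS)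

noncomputable section

variable {X : Type} [Countable X]

/-- the filtration -/
def filt (X : Type) : Filtration ℕ (MeasurableSpace.pi : MeasurableSpace (Sample X)) where
  seq n := past X n
  mono' _ _ h := past_mono h
  le' n := past_le n

/-- the product martingale -/
def M (s : X → ℝ) (x : X) (n : ℕ) (ω : Sample X) : ℝ := mon s (pop x ω n)

theorem M_nonneg {s : X → ℝ} (hs : Box s) (x : X) (n : ℕ) (ω : Sample X) : 0 ≤ M s x n ω :=
  mon_nonneg hs _

theorem M_le_one {s : X → ℝ} (hs : Box s) (x : X) (n : ℕ) (ω : Sample X) : M s x n ω ≤ 1 :=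
  mon_le_one hs _

theorem M_meas (s : X → ℝ) (x : X) (n : ℕ) : Measurable[past X n] (M s x n) :=
  (measurable_of_countable fun f : X →₀ ℕ => mon s f).comp (pop_meas x n)

theorem M_meas' (s : X → ℝ) (x : X) (n : ℕ) : Measurable (M s x n) :=
  (M_meas s x n).mono (past_le n) le_rfl

theorem M_int (μ : X → PMF (X →₀ ℕ)) {s : X → ℝ} (hs : Box s) (x : X) (n : ℕ) :
    Integrable (M s x n) (law μ) := by
  refine Integrable.of_bound (M_meas' s x n).aestronglyMeasurable 1 ?_
  refine Eventually.of_forall fun ω => ?_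
  rw [Real.norm_of_nonneg (M_nonneg hs x n ω)]
  exact M_le_one hs x n ω

theorem integral_M (μ : X → PMF (X →₀ ℕ)) {s : X → ℝ} (hs : Box s) (x : X) (n : ℕ) :
    ∫ ω, M s x n ω ∂(law μ) = ((gen μ)^[n] s) x := by
  rw [integral_eq_lintegral_of_nonneg_ae (Eventually.of_forall fun ω => M_nonneg hs x n ω)
    (M_meas' s x n).aestronglyMeasurable]
  have h := steps μ x 0 n hs (fun _ => 1) measurable_const
  simp only [one_mul, zero_add] at h
  have e : ∫⁻ ω, ENNReal.ofReal (M s x n ω) ∂(law μ) =
      ∫⁻ ω, ENNReal.ofReal (mon s (pop x ω n)) ∂(law μ) := rfl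
  rw [e, h]
  have e2 : ∀ ω : Sample X, pop x ω 0 = Finsupp.single x 1 := fun _ => rfl
  simp_rw [e2, mon_single]
  rw [lintegral_const, measure_univ, mul_one, ENNReal.toReal_ofReal (iter_gen_box μ n hs x).1]

theorem martingale (μ : X → PMF (X →₀ ℕ)) {s : X → ℝ} (hs : Box s) (fs : gen μ s = s) (x : X) :
    Martingale (M s x) (filt X) (law μ) := by
  refine martingale_nat (fun n => (M_meas s x n).stronglyMeasurable) (M_int μ hs x) fun n => ?_
  refine ae_eq_condExp_of_forall_setIntegral_eq (past_le n) (M_int μ hs x (n + 1))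
    (fun _ _ _ => (M_int μ hs x n).integrableOn) ?_ ?_
  · intro A hA _
    have hA' : MeasurableSet A := past_le n A hA
    have key : ∀ k : ℕ, ∫ ω in A, M s x k ω ∂(law μ) =
        (∫⁻ ω, A.indicator 1 ω * ENNReal.ofReal (mon s (pop x ω k)) ∂(law μ)).toReal := by
      intro k
      rw [integral_eq_lintegral_of_nonneg_ae (Eventually.of_forall fun ω => M_nonneg hs x k ω)
        (M_meas' s x k).aestronglyMeasurable, ← lintegral_indicator hA']
      congr 1
      refine lintegral_congr fun ω => ?_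
      by_cases h : ω ∈ A
      · rw [indicator_of_mem h, indicator_of_mem h]
        simp [M]
      · rw [indicator_of_notMem h, indicator_of_notMem h]
        simp
    have hm : Measurable[past X n] (A.indicator (1 : Sample X → ℝ≥0∞)) := by
      exact @Measurable.indicator _ _ _ _ (past X n) _ _ (@measurable_const _ _ _ (past X n) 1) hA
    rw [key, key, one_step μ x hs n _ hm, fs]
  · have h : StronglyMeasurable[past X n] (M s x n) :=
      (M_meas s x n).stronglyMeasurable
    exact ⟨M s x n, h, Filter.EventuallyEq.rfl⟩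

/-- the limit -/
def Minf (μ : X → PMF (X →₀ ℕ)) (s : X → ℝ) (x : X) : Sample X → ℝ :=
  (filt X).limitProcess (M s x) (law μ)

theorem Minf_meas (μ : X → PMF (X →₀ ℕ)) (s : X → ℝ) (x : X) : Measurable (Minf μ s x) :=
  Filtration.stronglyMeasurable_limit_process'.measurable

theorem tendsto_M (μ : X → PMF (X →₀ ℕ)) {s : X → ℝ} (hs : Box s) (fs : gen μ s = s) (x : X) :
    ∀ᵐ ω ∂(law μ), Tendsto (fun n => M s x n ω) atTop (𝓝 (Minf μ s x ω)) := by
  refine (martingale μ hs fs x).submartingale.ae_tendsto_limitProcess (R := 1) fun n => ?_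
  refine (eLpNorm_le_of_ae_bound (C := 1) (Eventually.of_forall fun ω => ?_)).trans ?_
  · rw [Real.norm_of_nonneg (M_nonneg hs x n ω)]
    exact M_le_one hs x n ω
  · simp

theorem Minf_mem (μ : X → PMF (X →₀ ℕ)) {s : X → ℝ} (hs : Box s) (fs : gen μ s = s) (x : X) :
    ∀ᵐ ω ∂(law μ), 0 ≤ Minf μ s x ω ∧ Minf μ s x ω ≤ 1 := by
  filter_upwards [tendsto_M μ hs fs x] with ω hω
  exact ⟨ge_of_tendsto' hω fun n => M_nonneg hs x n ω, le_of_tendsto' hω fun n => M_le_one hs x n ω⟩

/-- the moments of the limit -/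
def mom (μ : X → PMF (X →₀ ℕ)) (s : X → ℝ) (k : ℕ) (x : X) : ℝ :=
  ∫ ω, Minf μ s x ω ^ k ∂(law μ)

theorem pow_box {s : X → ℝ} (hs : Box s) (k : ℕ) : Box fun y => s y ^ k := fun y =>
  ⟨pow_nonneg (hs y).1 _, pow_le_one₀ (hs y).1 (hs y).2⟩

theorem M_pow (s : X → ℝ) (x : X) (n k : ℕ) (ω : Sample X) :
    M (fun y => s y ^ k) x n ω = M s x n ω ^ k := by
  unfold M mon Finsupp.prod
  rw [← Finset.prod_pow]
  refine Finset.prod_congr rfl fun y _ => ?_
  dsimp only
  rw [← pow_mul, ← pow_mul, mul_comm]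

theorem tendsto_mom (μ : X → PMF (X →₀ ℕ)) {s : X → ℝ} (hs : Box s) (fs : gen μ s = s) (k : ℕ) :
    Tendsto (fun n => (gen μ)^[n] (fun y => s y ^ k)) atTop (𝓝 (mom μ s k)) := by
  rw [tendsto_pi_nhds]
  intro x
  simp_rw [← integral_M μ (pow_box hs k) x, M_pow]
  refine tendsto_integral_of_dominated_convergence (fun _ => 1)
    (fun n => ((M_meas' s x n).pow_const k).aestronglyMeasurable) (integrable_const 1) ?_ ?_
  · intro n
    refine Eventually.of_forall fun ω => ?_
    rw [Real.norm_of_nonneg (pow_nonneg (M_nonneg hs x n ω) _)]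
    exact pow_le_one₀ (M_nonneg hs x n ω) (M_le_one hs x n ω)
  · filter_upwards [tendsto_M μ hs fs x] with ω hω
    exact hω.pow k

theorem mom_box (μ : X → PMF (X →₀ ℕ)) {s : X → ℝ} (hs : Box s) (fs : gen μ s = s) (k : ℕ) :
    Box (mom μ s k) := by
  intro x
  have h := (tendsto_pi_nhds.1 (tendsto_mom μ hs fs k)) x
  exact ⟨ge_of_tendsto' h fun n => (iter_gen_box μ n (pow_box hs k) x).1,
    le_of_tendsto' h fun n => (iter_gen_box μ n (pow_box hs k) x).2⟩

theorem mom_fixed (μ : X → PMF (X →₀ ℕ)) {s : X → ℝ} (hs : Box s) (fs : gen μ s = s) (k : ℕ) :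
    gen μ (mom μ s k) = mom μ s k := by
  have h1 := (gen_good μ).cont atTop (fun n => (gen μ)^[n] (fun y => s y ^ k)) (mom μ s k)
    (Eventually.of_forall fun n => iter_gen_box μ n (pow_box hs k)) (mom_box μ hs fs k)
    (tendsto_mom μ hs fs k)
  have h2 : Tendsto (fun n => (gen μ)^[n + 1] (fun y => s y ^ k)) atTop (𝓝 (mom μ s k)) :=
    (tendsto_add_atTop_iff_nat 1).mpr (tendsto_mom μ hs fs k)
  simp_rw [Function.iterate_succ_apply'] at h2
  exact tendsto_nhds_unique h1 h2

theorem mom_one (μ : X → PMF (X →₀ ℕ)) {s : X → ℝ} (hs : Box s) (fs : gen μ s = s) :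
    mom μ s 1 = s := by
  have h := tendsto_mom μ hs fs 1
  have e : ∀ n, (gen μ)^[n] (fun y => s y ^ 1) = s := by
    intro n
    simp only [pow_one]
    exact Function.iterate_fixed fs n
  simp_rw [e] at h
  exact tendsto_nhds_unique h tendsto_const_nhds

/-- if two moments coincide, then the limit is zero or one -/
theorem zero_or_one (μ : X → PMF (X →₀ ℕ)) {s : X → ℝ} (hs : Box s) (fs : gen μ s = s)
    {k l : ℕ} (hkl : k < l) (h : mom μ s k = mom μ s l) (x : X) :
    ∀ᵐ ω ∂(law μ), Minf μ s x ω = 0 ∨ Minf μ s x ω = 1 := by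
  have hb := Minf_mem μ hs fs x
  have hint : ∀ j : ℕ, Integrable (fun ω => Minf μ s x ω ^ j) (law μ) := by
    intro j
    refine Integrable.of_bound ((Minf_meas μ s x).pow_const j).aestronglyMeasurable 1 ?_
    filter_upwards [hb] with ω hω
    rw [Real.norm_of_nonneg (pow_nonneg hω.1 _)]
    exact pow_le_one₀ hω.1 hω.2
  have h0 : ∫ ω, (Minf μ s x ω ^ k - Minf μ s x ω ^ l) ∂(law μ) = 0 := by
    rw [integral_sub (hint k) (hint l)]
    have := congrFun h x
    unfold mom at this
    rw [this, sub_self]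
  have h1 : (0 : Sample X → ℝ) ≤ᵐ[law μ] fun ω => Minf μ s x ω ^ k - Minf μ s x ω ^ l := by
    filter_upwards [hb] with ω hω
    exact sub_nonneg.2 (pow_le_pow_of_le_one hω.1 hω.2 hkl.le)
  have h2 := (integral_eq_zero_iff_of_nonneg_ae h1 ((hint k).sub (hint l))).1 h0
  filter_upwards [h2, hb] with ω hω hω'
  have h3 : Minf μ s x ω ^ k - Minf μ s x ω ^ l = 0 := hω
  by_contra hcon
  push Not at hcon
  have h4 : 0 < Minf μ s x ω := lt_of_le_of_ne hω'.1 (Ne.symm hcon.1)
  have h5 : Minf μ s x ω < 1 := lt_of_le_of_ne hω'.2 hcon.2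
  have h6 := pow_lt_pow_right_of_lt_one₀ h4 h5 hkl
  linarith

/-- in this case the fixed point is bounded by the probabilities of extinction in the sets
`{y | s y ≤ 1 - ε}` -/
theorem le_beta (μ : X → PMF (X →₀ ℕ)) {s : X → ℝ} (hs : Box s) (fs : gen μ s = s)
    (h01 : ∀ x, ∀ᵐ ω ∂(law μ), Minf μ s x ω = 0 ∨ Minf μ s x ω = 1) {ε : ℝ} (hε : 0 < ε) :
    s ≤ beta μ {y | s y ≤ 1 - ε} := by
  classical
  intro x
  have h1 : s x = ∫ ω, Minf μ s x ω ∂(law μ) := by
    have h := congrFun (mom_one μ hs fs) x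
    unfold mom at h
    simp only [pow_one] at h
    exact h.symm
  rw [h1]
  have h2 : (∫ ω, Minf μ s x ω ∂(law μ)) ≤
      ∫ ω, (Dev x {y | s y ≤ 1 - ε}).indicator (fun _ => (1 : ℝ)) ω ∂(law μ) := by
    refine integral_mono_ae ?_ ?_ ?_
    · refine Integrable.of_bound (Minf_meas μ s x).aestronglyMeasurable 1 ?_
      filter_upwards [Minf_mem μ hs fs x] with ω hω
      rw [Real.norm_of_nonneg hω.1]
      exact hω.2
    · exact (integrable_const 1).indicator (Dev_meas x _)
    · filter_upwards [h01 x, tendsto_M μ hs fs x] with ω hω ht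
      rcases hω with h | h
      · rw [h]
        exact indicator_nonneg (fun _ _ => zero_le_one) ω
      · rw [h]
        have hmem : ω ∈ Dev x {y | s y ≤ 1 - ε} := by
          rw [h] at ht
          have h3 : ∀ᶠ n in atTop, 1 - ε < M s x n ω := ht.eventually_const_lt (by linarith)
          obtain ⟨K, hK⟩ := eventually_atTop.1 h3
          rw [mem_Dev]
          refine ⟨K, fun n hn y hy => ?_⟩
          by_contra hne
          have h4 := hK n hn
          have hy' : s y ≤ 1 - ε := hy
          have h5 : M s x n ω ≤ s y := by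
            have h6 : M s x n ω = s y ^ (pop x ω n y) *
                ∏ z ∈ (pop x ω n).support.erase y, s z ^ (pop x ω n z) := by
              have := Finset.mul_prod_erase (pop x ω n).support
                (fun z => s z ^ (pop x ω n z)) (a := y) (Finsupp.mem_support_iff.2 hne)
              rw [this]
              rfl
            rw [h6]
            have h7 : ∏ z ∈ (pop x ω n).support.erase y, s z ^ (pop x ω n z) ≤ 1 :=
              Finset.prod_le_one (fun z _ => pow_nonneg (hs z).1 _)
                fun z _ => pow_le_one₀ (hs z).1 (hs z).2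
            have h8 : s y ^ (pop x ω n y) ≤ s y := pow_le_of_le_one (hs y).1 (hs y).2 hne
            calc s y ^ (pop x ω n y) * ∏ z ∈ (pop x ω n).support.erase y, s z ^ (pop x ω n z)
                ≤ s y ^ (pop x ω n y) * 1 :=
                  mul_le_mul_of_nonneg_left h7 (pow_nonneg (hs y).1 _)
              _ ≤ s y := by rw [mul_one]; exact h8
          linarith
        rw [indicator_of_mem hmem]
  refine h2.trans (le_of_eq ?_)
  rw [integral_indicator_const (1 : ℝ) (Dev_meas x _)]
  simp [beta]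

end

end Pool.Agent.V1138.BR
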